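import Mathlib

/-!
# Projectors and graded invariant subspaces

Let a monoid `G` act on two finite dimensional vector spaces `V₀`, `V₁`. The projector from
`V₀ ⊕ V₁` to `V₀` is a linear combination of elements of `G` if and only if all `G`-invariant
subspaces of `V₀ ⊕ V₁` are graded.
-/

set_option autoImplicit false

open Module

namespace Pool.Agent.T9h41.TPC

variable {E : Type*} [Field E] {G : Type*} [Monoid G]

section ideal

variable {A : Type*} [Ring A] {V : Type*} [AddCommGroup V] [Module A V]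

/-- The elements of the left ideal `J` which kill `v` are in `m`, and `J + m` is everything. -/
def Hits (m J : Submodule A A) (v : V) : Prop :=
  (∀ b ∈ J, b • v = 0 → b ∈ m) ∧ J ⊔ m = ⊤

/-- If finitely many vectors are such that only elements of `m` kill all of them, where `m` is a
maximal left ideal, then one of them is hit. -/
lemma exists_hits {m : Submodule A A} (hm : IsCoatom m) (l : List V) :
    ∀ J : Submodule A A, J ⊔ m = ⊤ → (∀ b ∈ J, (∀ v ∈ l, b • v = 0) → b ∈ m) →
      ∃ (J' : Submodule A A) (v : V), Hits m J' v := by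
  induction l with
  | nil =>
    intro J hJ h
    exfalso
    have h1 : J ≤ m := fun b hb => h b hb fun v hv => by simp at hv
    rw [sup_eq_right.2 h1] at hJ
    exact hm.1 hJ
  | cons v l ih =>
    intro J hJ h
    let J' : Submodule A A := J ⊓ LinearMap.ker (LinearMap.toSpanSingleton A V v)
    have hJ' : ∀ b, b ∈ J' ↔ b ∈ J ∧ b • v = 0 := fun b => by
      simp only [J', Submodule.mem_inf, LinearMap.mem_ker, LinearMap.toSpanSingleton_apply]
    by_cases h1 : J' ≤ m
    · exact ⟨J, v, fun b hb hv => h1 ((hJ' b).2 ⟨hb, hv⟩), hJ⟩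
    · refine ih J' ?_ ?_
      · rcases hm.le_iff.1 (le_sup_right : m ≤ J' ⊔ m) with h2 | h2
        · exact h2
        · exact absurd (le_sup_left.trans h2.le) h1
      · intro b hb hl
        have hb' := (hJ' b).1 hb
        refine h b hb'.1 fun w hw => ?_
        rcases List.mem_cons.1 hw with rfl | hw
        · exact hb'.2
        · exact hl w hw

end ideal

section algebra

lemma smul_comm_tower {E : Type*} [Field E] {A : Type*} [Ring A] [Algebra E A] {V₀ : Type*}
    [AddCommGroup V₀] [Module A V₀] [Module E V₀] [IsScalarTower E A V₀] (a : A) (c : E) (v : V₀) :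
    a • c • v = c • a • v := by
  rw [← one_smul A v, ← smul_assoc c (1 : A) v, smul_smul, smul_smul, ← smul_assoc, mul_one,
    mul_smul_comm, mul_one]

/-- The algebraic form of the criterion. -/
theorem exists_projector_iff (E : Type*) [Field E] {A : Type*} [Ring A] [Algebra E A]
    {V₀ V₁ : Type*} [AddCommGroup V₀] [Module A V₀] [Module E V₀] [IsScalarTower E A V₀]
    [Module.Finite E V₀] [AddCommGroup V₁] [Module A V₁] [Module E V₁] [IsScalarTower E A V₁]
    [Module.Finite E V₁] :
    (∃ a : A, (∀ v : V₀, a • v = v) ∧ ∀ v : V₁, a • v = 0) ↔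
      ∀ Γ : Submodule A (V₀ × V₁), ∀ x ∈ Γ, (x.1, (0 : V₁)) ∈ Γ := by
  constructor
  · rintro ⟨a, h0, h1⟩ Γ x hx
    have h2 := Γ.smul_mem a hx
    have h3 : a • x = (x.1, (0 : V₁)) := Prod.ext (h0 x.1) (h1 x.2)
    rwa [h3] at h2
  · intro hΓ
    classical
    by_contra hcon
    -- the annihilators
    let I₀ : Submodule A A := ⨅ v : V₀, LinearMap.ker (LinearMap.toSpanSingleton A V₀ v)
    let I₁ : Submodule A A := ⨅ v : V₁, LinearMap.ker (LinearMap.toSpanSingleton A V₁ v)
    have m0 : ∀ a, a ∈ I₀ ↔ ∀ v : V₀, a • v = 0 := fun a => by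
      simp only [I₀, Submodule.mem_iInf, LinearMap.mem_ker, LinearMap.toSpanSingleton_apply]
    have m1 : ∀ a, a ∈ I₁ ↔ ∀ v : V₁, a • v = 0 := fun a => by
      simp only [I₁, Submodule.mem_iInf, LinearMap.mem_ker, LinearMap.toSpanSingleton_apply]
    have hne : I₀ ⊔ I₁ ≠ ⊤ := by
      intro htop
      have h1 : (1 : A) ∈ I₀ ⊔ I₁ := by rw [htop]; trivial
      obtain ⟨a, ha, b, hb, hab⟩ := Submodule.mem_sup.1 h1
      refine hcon ⟨b, fun v => ?_, (m1 b).1 hb⟩
      have h2 : b = 1 - a := by rw [← hab]; abel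
      rw [h2, sub_smul, one_smul, (m0 a).1 ha v, sub_zero]
    obtain ⟨m, hm, hle⟩ := (eq_top_or_exists_le_coatom (I₀ ⊔ I₁)).resolve_left hne
    -- vectors which are hit
    obtain ⟨s, hs⟩ := (Module.Finite.fg_top : (⊤ : Submodule E V₀).FG)
    obtain ⟨t, ht⟩ := (Module.Finite.fg_top : (⊤ : Submodule E V₁).FG)
    obtain ⟨J, v, hv1, hv2⟩ := exists_hits (V := V₀) hm s.toList ⊤ (by simp) (by
      intro b _ hb
      refine hle (Submodule.mem_sup_left ((m0 b).2 fun v => ?_))
      have hv : v ∈ Submodule.span E (s : Set V₀) := by rw [hs]; trivial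
      induction hv using Submodule.span_induction with
      | mem x hx => exact hb x (Finset.mem_toList.2 hx)
      | zero => exact smul_zero b
      | add x y _ _ hx hy => rw [smul_add, hx, hy, add_zero]
      | smul c x _ hx => rw [smul_comm_tower, hx, smul_zero])
    obtain ⟨J', v', hv1', hv2'⟩ := exists_hits (V := V₁) hm t.toList ⊤ (by simp) (by
      intro b _ hb
      refine hle (Submodule.mem_sup_right ((m1 b).2 fun v => ?_))
      have hv : v ∈ Submodule.span E (t : Set V₁) := by rw [ht]; trivial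
      induction hv using Submodule.span_induction with
      | mem x hx => exact hb x (Finset.mem_toList.2 hx)
      | zero => exact smul_zero b
      | add x y _ _ hx hy => rw [smul_add, hx, hy, add_zero]
      | smul c x _ hx => rw [smul_comm_tower, hx, smul_zero])
    -- the invariant subspace
    let Γ : Submodule A (V₀ × V₁) :=
      { carrier := {x | ∃ b ∈ J, ∃ b' ∈ J', b - b' ∈ m ∧ x = (b • v, b' • v')}
        zero_mem' := ⟨0, J.zero_mem, 0, J'.zero_mem, by simp, by rw [zero_smul, zero_smul]; rfl⟩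
        add_mem' := by
          rintro x y ⟨b, hb, b', hb', h1, rfl⟩ ⟨c, hc, c', hc', h2, rfl⟩
          refine ⟨b + c, J.add_mem hb hc, b' + c', J'.add_mem hb' hc', ?_, ?_⟩
          · have : b + c - (b' + c') = (b - b') + (c - c') := by abel
            rw [this]
            exact m.add_mem h1 h2
          · rw [add_smul, add_smul]
            rfl
        smul_mem' := by
          rintro a x ⟨b, hb, b', hb', h1, rfl⟩
          refine ⟨a * b, J.smul_mem a hb, a * b', J'.smul_mem a hb', ?_, ?_⟩
          · rw [← mul_sub]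
            exact m.smul_mem a h1
          · rw [mul_smul, mul_smul]
            rfl }
    have h1 : (1 : A) ∈ J ⊔ m := by rw [hv2]; trivial
    have h1' : (1 : A) ∈ J' ⊔ m := by rw [hv2']; trivial
    obtain ⟨b, hb, d, hd, hbd⟩ := Submodule.mem_sup.1 h1
    obtain ⟨b', hb', d', hd', hbd'⟩ := Submodule.mem_sup.1 h1'
    have hmem : ((b • v, b' • v') : V₀ × V₁) ∈ Γ := by
      refine ⟨b, hb, b', hb', ?_, rfl⟩
      have : b - b' = d' - d := by
        rw [sub_eq_sub_iff_add_eq_add, hbd, ← hbd', add_comm]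
      rw [this]
      exact m.sub_mem hd' hd
    obtain ⟨c, hc, c', hc', h3, h4⟩ := hΓ Γ _ hmem
    have h5 : b • v = c • v := congrArg Prod.fst h4
    have h6 : (0 : V₁) = c' • v' := congrArg Prod.snd h4
    have h7 : c' ∈ m := hv1' c' hc' h6.symm
    have h8 : c ∈ m := by
      have : c = (c - c') + c' := by abel
      rw [this]
      exact m.add_mem h3 h7
    have h9 : b - c ∈ m := hv1 _ (J.sub_mem hb hc) (by rw [sub_smul, h5, sub_self])
    have h10 : b ∈ m := by
      have : b = (b - c) + c := by abel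
      rw [this]
      exact m.add_mem h9 h8
    have h11 : (1 : A) ∈ m := by
      rw [← hbd]
      exact m.add_mem h10 hd
    refine hm.1 ((Ideal.eq_top_iff_one m).2 h11)

end algebra

section monoid

variable {V₀ V₁ : Type*} [AddCommGroup V₀] [Module E V₀] [Module.Finite E V₀] [AddCommGroup V₁]
  [Module E V₁] [Module.Finite E V₁]

/-- **The criterion.** Let the monoid `G` act on `V₀` and on `V₁`. A linear combination of elements of
`G` acts as the identity on `V₀` and as zero on `V₁` if and only if each subspace of `V₀ × V₁` which is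
invariant under `G` is graded. -/
theorem projector_iff (r₀ : G →* Module.End E V₀) (r₁ : G →* Module.End E V₁) :
    (∃ (n : ℕ) (c : Fin n → E) (g : Fin n → G), ∑ i, c i • r₀ (g i) = 1 ∧
        ∑ i, c i • r₁ (g i) = 0) ↔
      ∀ Γ : Submodule E (V₀ × V₁), (∀ (g : G), ∀ x ∈ Γ, (r₀ g x.1, r₁ g x.2) ∈ Γ) →
        ∀ x ∈ Γ, (x.1, (0 : V₁)) ∈ Γ := by
  classical
  let φ₀ : MonoidAlgebra E G →ₐ[E] Module.End E V₀ := MonoidAlgebra.lift E _ G r₀
  let φ₁ : MonoidAlgebra E G →ₐ[E] Module.End E V₁ := MonoidAlgebra.lift E _ G r₁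
  let i₀ : Module (MonoidAlgebra E G) V₀ := Module.compHom V₀ φ₀.toRingHom
  let i₁ : Module (MonoidAlgebra E G) V₁ := Module.compHom V₁ φ₁.toRingHom
  have e₀ : ∀ (a : MonoidAlgebra E G) (v : V₀), a • v = φ₀ a v := fun _ _ => rfl
  have e₁ : ∀ (a : MonoidAlgebra E G) (v : V₁), a • v = φ₁ a v := fun _ _ => rfl
  have t₀ : IsScalarTower E (MonoidAlgebra E G) V₀ := ⟨fun c a v => by
    rw [e₀, e₀, map_smul, LinearMap.smul_apply]⟩
  have t₁ : IsScalarTower E (MonoidAlgebra E G) V₁ := ⟨fun c a v => by
    rw [e₁, e₁, map_smul, LinearMap.smul_apply]⟩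
  have key := exists_projector_iff E (A := MonoidAlgebra E G) (V₀ := V₀) (V₁ := V₁)
  have s₀ : ∀ (g : G) (v : V₀), (MonoidAlgebra.single g (1 : E) : MonoidAlgebra E G) • v =
      r₀ g v := fun g v => by
    rw [e₀]
    simp [φ₀]
  have s₁ : ∀ (g : G) (v : V₁), (MonoidAlgebra.single g (1 : E) : MonoidAlgebra E G) • v =
      r₁ g v := fun g v => by
    rw [e₁]
    simp [φ₁]
  have hex : ∀ a : MonoidAlgebra E G, ∃ (n : ℕ) (c : Fin n → E) (g : Fin n → G),
      a = ∑ i, c i • MonoidAlgebra.single (g i) (1 : E) := by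
    intro a
    induction a using MonoidAlgebra.induction_on with
    | of g => exact ⟨1, fun _ => 1, fun _ => g, by simp [MonoidAlgebra.of_apply]⟩
    | add a b ha hb =>
      obtain ⟨n, c, g, rfl⟩ := ha
      obtain ⟨n', c', g', rfl⟩ := hb
      exact ⟨n + n', Fin.append c c', Fin.append g g', by simp [Fin.sum_univ_add]⟩
    | smul r a ha =>
      obtain ⟨n, c, g, rfl⟩ := ha
      refine ⟨n, fun i => r * c i, g, ?_⟩
      rw [Finset.smul_sum]
      exact Finset.sum_congr rfl fun i _ => smul_smul _ _ _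
  constructor
  · rintro ⟨n, c, g, h0, h1⟩ Γ hΓ x hx
    have h2 : (∑ i, c i • r₀ (g i)) x.1 = x.1 := by rw [h0]; rfl
    have h3 : (∑ i, c i • r₁ (g i)) x.2 = 0 := by rw [h1]; rfl
    have h4 : ((∑ i, c i • r₀ (g i)) x.1, (∑ i, c i • r₁ (g i)) x.2) =
        ∑ i, c i • ((r₀ (g i) x.1, r₁ (g i) x.2) : V₀ × V₁) := by
      rw [LinearMap.sum_apply, LinearMap.sum_apply]
      refine Prod.ext ?_ ?_
      · simp [Prod.fst_sum]
      · simp [Prod.snd_sum]
    rw [h2, h3] at h4
    rw [h4]
    exact Γ.sum_mem fun i _ => Γ.smul_mem _ (hΓ _ x hx)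
  · intro h
    have h1 : ∀ Γ : Submodule (MonoidAlgebra E G) (V₀ × V₁), ∀ x ∈ Γ, (x.1, (0 : V₁)) ∈ Γ := by
      intro Γ x hx
      let Γ' : Submodule E (V₀ × V₁) :=
        { carrier := Γ
          zero_mem' := Γ.zero_mem
          add_mem' := Γ.add_mem
          smul_mem' := fun c x hx => by
            have h2 : c • x = (c • (1 : MonoidAlgebra E G)) • x := by
              refine Prod.ext ?_ ?_
              · change c • x.1 = (c • (1 : MonoidAlgebra E G)) • x.1
                rw [smul_assoc, one_smul]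
              · change c • x.2 = (c • (1 : MonoidAlgebra E G)) • x.2
                rw [smul_assoc, one_smul]
            change c • x ∈ Γ
            rw [h2]
            exact Γ.smul_mem _ hx }
      refine h Γ' (fun g y hy => ?_) x hx
      have h2 := Γ.smul_mem (MonoidAlgebra.single g (1 : E)) hy
      have h3 : (MonoidAlgebra.single g (1 : E) : MonoidAlgebra E G) • y =
          (r₀ g y.1, r₁ g y.2) := Prod.ext (s₀ g y.1) (s₁ g y.2)
      rw [h3] at h2
      exact h2
    obtain ⟨a, ha0, ha1⟩ := key.2 h1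
    obtain ⟨n, c, g, rfl⟩ := hex a
    refine ⟨n, c, g, ?_, ?_⟩
    · ext v
      rw [LinearMap.sum_apply, Module.End.one_apply]
      conv_rhs => rw [← ha0 v]
      rw [Finset.sum_smul]
      refine Finset.sum_congr rfl fun i _ => ?_
      rw [smul_assoc, s₀]
      rfl
    · ext v
      rw [LinearMap.sum_apply, LinearMap.zero_apply]
      conv_rhs => rw [← ha1 v]
      rw [Finset.sum_smul]
      refine Finset.sum_congr rfl fun i _ => ?_
      rw [smul_assoc, s₁]
      rfl

end monoid

end Pool.Agent.T9h41.TPC
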