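import Pool.Agent.T9h41.TPC.Crit

/-!
# Kunneth projectors and torsion in topological periodic cyclic homology
-/

set_option autoImplicit false

open CategoryTheory Module

namespace Pool.Agent.T9h41.TPC

universe v w x y z

/-- The reduction `r` and the Bockstein map `b` of a long exact sequence

`T ⟶ T ⟶ H ⟶ T' ⟶ T'`

with the multiplication by `p` on the left and on the right, where `T` and `T'` are modules over the ring of Witt vectors `W (E)` and `H` is a vector space over
`E`. A Witt vector acts on `H` through its constant coefficient, and the maps are `W (E)`-linear. -/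
structure IsBockstein (p : ℕ) [Fact p.Prime] {E : Type*} [Field E] {T H T' : Type*}
    [AddCommGroup T] [Module (WittVector p E) T] [AddCommGroup H] [Module E H] [AddCommGroup T']
    [Module (WittVector p E) T'] (r : T →+ H) (b : H →+ T') : Prop where
  red_smul : ∀ (a : WittVector p E) (t : T), r (a • t) = WittVector.constantCoeff a • r t
  bock_smul : ∀ (a : WittVector p E) (h : H), b (WittVector.constantCoeff a • h) = a • b h
  exact₁ : ∀ t : T, r t = 0 ↔ ∃ s, t = p • s
  exact₂ : ∀ h : H, b h = 0 ↔ ∃ t, r t = h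
  exact₃ : ∀ t : T', p • t = 0 ↔ ∃ h, b h = t

/-- The additive maps `r M` are natural in `M`. -/
def IsNatural {C : Type w} [Category.{v} C] {A B : Type*} [Ring A] [Ring B]
    (S : C ⥤ ModuleCat.{y} A) (T : C ⥤ ModuleCat.{z} B) (r : ∀ M, S.obj M →+ T.obj M) : Prop :=
  ∀ {M N : C} (f : M ⟶ N) (s : S.obj M), r N (S.map f s) = T.map f (r M s)

/-- Topological periodic cyclic homology and periodic cyclic homology, with the properties which are
used. `E` is a perfect field of characteristic `p`, which contains the base field `k`, and `W (E)` its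
ring of Witt vectors. `C` is the category of the saturated dg categories over `k`; the morphisms
`𝒜 ⟶ ℬ` are the elements of `K_0 (𝒜ᵒᵖ ⊗ ℬ)`. `TP i 𝒜` is the group `TP_i (𝒜_E)`, a finitely generated
module over `W (E)`, and `HP i 𝒜` is the vector space `HP_i (𝒜_E) = HP_i (𝒜) ⊗ E`, where `𝒜_E` is
obtained from `𝒜` by extension of the base field; the degree `i` is taken modulo two (Bott
periodicity). As `HP = TP / p` there are natural long exact sequences

`TP i ⟶ TP i ⟶ HP i ⟶ TP (i + 1) ⟶ TP (i + 1)`

with the multiplication by `p` on the left and on the right, the reduction `red` and the Bockstein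
map `bock`. -/
structure PeriodicTheory (p : ℕ) [Fact p.Prime] (E : Type x) [Field E]
    (C : Type w) [Category.{v} C] where
  /-- topological periodic cyclic homology -/
  TP : ZMod 2 → C ⥤ ModuleCat.{y} (WittVector p E)
  /-- periodic cyclic homology -/
  HP : ZMod 2 → C ⥤ ModuleCat.{z} E
  /-- the reduction -/
  red : ∀ (i : ZMod 2) (M : C), (TP i).obj M →+ (HP i).obj M
  /-- the Bockstein map -/
  bock : ∀ (i : ZMod 2) (M : C), (HP i).obj M →+ (TP (i + 1)).obj M
  finite : ∀ (i : ZMod 2) (M : C), Module.Finite (WittVector p E) ((TP i).obj M)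
  exact : ∀ (i : ZMod 2) (M : C), IsBockstein p (E := E) (red i M) (bock i M)
  red_natural : ∀ i : ZMod 2, IsNatural (TP i) (HP i) (red i)
  bock_natural : ∀ i : ZMod 2, IsNatural (HP i) (TP (i + 1)) (bock i)

/-- The Kunneth projector to the part of degree `e` of the periodic cyclic homology of `M` (the even
part for `e = 0`, the odd part for `e = 1`) is algebraic with coefficients in `F`: it is an
`F`-linear combination of the operators given by endomorphisms of `M` (noncommutative
correspondences, elements of `K_0 (𝒜ᵒᵖ ⊗ 𝒜)`). -/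
def IsAlgebraic {E : Type x} [Field E] {C : Type w} [Category.{v} C]
    (HP : ZMod 2 → C ⥤ ModuleCat.{z} E) {F : Type*} [Field F] (ι : F →+* E) (M : C)
    (e : ZMod 2) : Prop :=
  ∃ (n : ℕ) (c : Fin n → F) (f : Fin n → (M ⟶ M)),
    ∀ i : ZMod 2, ∑ j, ι (c j) • (HP i).map (f j) = if i = e then 𝟙 ((HP i).obj M) else 0

/-- The operators `φ` and `ψ` on the factors map the subspace `Γ` of the product to itself. -/
def Preserves {E : Type*} [Field E] {V V' : Type*} [AddCommGroup V] [Module E V] [AddCommGroup V']
    [Module E V'] (Γ : Submodule E (V × V')) (φ : V →ₗ[E] V) (ψ : V' →ₗ[E] V') : Prop :=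
  ∀ a ∈ Γ, (φ a.1, ψ a.2) ∈ Γ

/-- The subspace `Γ` of `HP 0 M × HP 1 M` is stable under all endomorphisms of `M`. -/
def IsStable {E : Type x} [Field E] {C : Type w} [Category.{v} C]
    (HP : ZMod 2 → C ⥤ ModuleCat.{z} E) (M : C)
    (Γ : Submodule E ((HP 0).obj M × (HP 1).obj M)) : Prop :=
  ∀ f : M ⟶ M, Preserves Γ ((HP 0).map f).hom ((HP 1).map f).hom

/-- The subspace `Γ` of a product is graded: the sum of a subspace of the first and a subspace of the
second factor. -/
def IsGraded {E : Type*} [Field E] {V V' : Type*} [AddCommGroup V] [Module E V] [AddCommGroup V']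
    [Module E V'] (Γ : Submodule E (V × V')) : Prop :=
  ∀ a ∈ Γ, (a.1, (0 : V')) ∈ Γ ∧ ((0 : V), a.2) ∈ Γ

/-- The dimension of `HP i M`. -/
noncomputable def PeriodicTheory.dimHP {p : ℕ} [Fact p.Prime] {E : Type x} [Field E] {C : Type w}
    [Category.{v} C] (T : PeriodicTheory.{v, w, x, y, z} p E C) (i : ZMod 2) (M : C) : ℕ :=
  finrank E ((T.HP i).obj M)

/-- The rank of the `W (E)`-module `TP i M`. -/
noncomputable def PeriodicTheory.rankTP {p : ℕ} [Fact p.Prime] {E : Type x} [Field E] {C : Type w}
    [Category.{v} C] (T : PeriodicTheory.{v, w, x, y, z} p E C) (i : ZMod 2) (M : C) : ℕ :=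
  finrank (WittVector p E) ((T.TP i).obj M)

/-- The `W (E)`-module `TP i M` is free. -/
def PeriodicTheory.FreeTP {p : ℕ} [Fact p.Prime] {E : Type x} [Field E] {C : Type w}
    [Category.{v} C] (T : PeriodicTheory.{v, w, x, y, z} p E C) (i : ZMod 2) (M : C) : Prop :=
  Module.Free (WittVector p E) ((T.TP i).obj M)

section

variable {p : ℕ} [Fact p.Prime] {E : Type x} [Field E] [CharP E p] [PerfectRing E p]

/-- Krull's intersection theorem for the multiplication by `p`. -/
lemma eq_zero_of_divisible {T : Type*} [AddCommGroup T] [Module (WittVector p E) T]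
    [Module.Finite (WittVector p E) T] (t : T) (h : ∀ n : ℕ, ∃ s : T, t = (p ^ n : ℕ) • s) :
    t = 0 := by
  have hp : Ideal.span {(p : WittVector p E)} ≠ ⊤ := by
    rw [Ne, Ideal.span_singleton_eq_top]
    exact (WittVector.irreducible p).not_isUnit
  have h1 : t ∈ (⨅ i : ℕ, (Ideal.span {(p : WittVector p E)}) ^ i • ⊤ :
      Submodule (WittVector p E) T) := by
    refine Submodule.mem_iInf _ |>.2 fun n => ?_
    obtain ⟨s, hs⟩ := h n
    rw [hs, ← Nat.cast_smul_eq_nsmul (WittVector p E), Nat.cast_pow]
    exact Submodule.smul_mem_smul (Ideal.pow_mem_pow (Ideal.mem_span_singleton_self _) n) trivial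
  rw [Ideal.iInf_pow_smul_eq_bot_of_isLocalRing _ hp] at h1
  exact h1

variable {C : Type w} [Category.{v} C] (T : PeriodicTheory.{v, w, x, y, z} p E C)

/-- The key lemma: an operator on `TP` which is given by a combination of morphisms. -/
theorem torsion_free_aux (M : C) {n : ℕ} (c : Fin n → E) (f : Fin n → (M ⟶ M)) (i j : ZMod 2)
    (hij : j = i + 1)
    (h0 : ∑ l, c l • (T.HP j).map (f l) = 0) (h1 : ∑ l, c l • (T.HP i).map (f l) = 𝟙 _)
    (t : (T.TP j).obj M) (ht : p • t = 0) : t = 0 := by
  subst hij
  have hfin := T.finite (i + 1) M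
  choose a ha using fun l => WittVector.constantCoeff_surjective p (c l)
  let b : (T.TP (i + 1)).obj M →ₗ[WittVector p E] (T.TP (i + 1)).obj M :=
    ∑ l, a l • ((T.TP (i + 1)).map (f l)).hom
  have hb : ∀ s, b s = ∑ l, a l • (T.TP (i + 1)).map (f l) s := by
    intro s
    simp only [b, LinearMap.sum_apply, LinearMap.smul_apply]
  -- `b` maps everything to multiples of `p`
  have h2 : ∀ s, ∃ s', b s = p • s' := by
    intro s
    refine ((T.exact (i + 1) M).exact₁ (b s)).1 ?_
    rw [hb, map_sum]
    have h3 : ∀ l, T.red (i + 1) M (a l • (T.TP (i + 1)).map (f l) s) =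
        (c l • (T.HP (i + 1)).map (f l)).hom (T.red (i + 1) M s) := by
      intro l
      rw [(T.exact (i + 1) M).red_smul, ha, T.red_natural (i + 1) (f l) s]
      rfl
    rw [Finset.sum_congr rfl fun l _ => h3 l]
    have h4 : ∑ l, (c l • (T.HP (i + 1)).map (f l)).hom (T.red (i + 1) M s) =
        (∑ l, c l • (T.HP (i + 1)).map (f l)).hom (T.red (i + 1) M s) := by
      rw [ModuleCat.hom_sum, LinearMap.sum_apply]
    rw [h4, h0]
    rfl
  -- `b` is the identity on the torsion
  have h5 : b t = t := by
    obtain ⟨h, rfl⟩ := ((T.exact i M).exact₃ t).1 ht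
    rw [hb]
    have h3 : ∀ l, a l • (T.TP (i + 1)).map (f l) (T.bock i M h) =
        T.bock i M ((c l • (T.HP i).map (f l)).hom h) := by
      intro l
      rw [← T.bock_natural i (f l) h, ← (T.exact i M).bock_smul, ha]
      rfl
    rw [Finset.sum_congr rfl fun l _ => h3 l, ← map_sum]
    have h4 : ∑ l, (c l • (T.HP i).map (f l)).hom h =
        (∑ l, c l • (T.HP i).map (f l)).hom h := by
      rw [ModuleCat.hom_sum, LinearMap.sum_apply]
    rw [h4, h1]
    rfl
  refine eq_zero_of_divisible (p := p) (E := E) t fun n => ?_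
  have h6 : ∀ n : ℕ, ∀ s, ∃ s', (b ^ n) s = (p ^ n : ℕ) • s' := by
    intro n
    induction n with
    | zero => exact fun s => ⟨s, by simp⟩
    | succ n ih =>
      intro s
      obtain ⟨s', hs'⟩ := h2 s
      obtain ⟨s'', hs''⟩ := ih s'
      refine ⟨s'', ?_⟩
      rw [pow_succ, Module.End.mul_apply, hs', map_nsmul, hs'', smul_smul, pow_succ, mul_comm]
  have h7 : ∀ n : ℕ, (b ^ n) t = t := by
    intro n
    induction n with
    | zero => rfl
    | succ n ih => rw [pow_succ, Module.End.mul_apply, h5, ih]
  obtain ⟨s', hs'⟩ := h6 n t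
  exact ⟨s', by rw [← hs', h7]⟩

/-- If a Kunneth projector is a combination of morphisms then there is no torsion. -/
theorem torsion_free {F : Type*} [Field F] (ι : F →+* E) (M : C) (e : ZMod 2)
    (h : IsAlgebraic T.HP ι M e) (i : ZMod 2) (t : (T.TP i).obj M) (ht : p • t = 0) : t = 0 := by
  obtain ⟨n, c, f, hc⟩ := h
  have key : ∀ i e : ZMod 2, i = e ∨ i = e + 1 := by decide
  have key2 : ∀ e : ZMod 2, e + 1 ≠ e := by decide
  have key3 : ∀ e : ZMod 2, e = e + 1 + 1 := by decide
  rcases key i e with rfl | rfl
  · -- use the complementary projector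
    let c' : Fin (n + 1) → E := Fin.cons 1 fun j => -(ι (c j))
    let f' : Fin (n + 1) → (M ⟶ M) := Fin.cons (𝟙 M) f
    have h1 : ∀ j : ZMod 2, ∑ l, c' l • (T.HP j).map (f' l) =
        𝟙 _ - ∑ l, ι (c l) • (T.HP j).map (f l) := by
      intro j
      rw [Fin.sum_univ_succ]
      simp only [c', f', Fin.cons_zero, Fin.cons_succ, one_smul, neg_smul, Finset.sum_neg_distrib,
        CategoryTheory.Functor.map_id, sub_eq_add_neg]
    refine torsion_free_aux T M c' f' (i + 1) i (key3 i) ?_ ?_ t ht
    · rw [h1, hc, if_pos rfl, sub_self]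
    · rw [h1, hc, if_neg (key2 i), sub_zero]
  · refine torsion_free_aux T M (fun l => ι (c l)) f e (e + 1) rfl ?_ ?_ t ht
    · rw [hc, if_neg (key2 e)]
    · rw [hc, if_pos rfl]

/-- Without torsion the modules are free and have the rank of the reduction. -/
theorem free_of_torsion_free (M : C) (h : ∀ (i : ZMod 2) (t : (T.TP i).obj M), p • t = 0 → t = 0)
    (i : ZMod 2) : Module.Free (WittVector p E) ((T.TP i).obj M) ∧
      finrank E ((T.HP i).obj M) = finrank (WittVector p E) ((T.TP i).obj M) := by
  have hfin := T.finite i M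
  have hp0 : (p : WittVector p E) ≠ 0 := (WittVector.irreducible p).ne_zero
  have htf : ∀ (a : WittVector p E) (t : (T.TP i).obj M), a • t = 0 → a = 0 ∨ t = 0 := by
    intro a t hat
    by_cases ha : a = 0
    · exact Or.inl ha
    · right
      obtain ⟨m, b, rfl⟩ := WittVector.exists_eq_pow_p_mul' a ha
      have h1 : ((p : WittVector p E) ^ m) • t = 0 := by
        have h2 : (b : WittVector p E) • ((p : WittVector p E) ^ m • t) = 0 := by
          rw [smul_smul, mul_comm]
          exact hat
        have h3 : ((b⁻¹ : (WittVector p E)ˣ) : WittVector p E) • (b : WittVector p E) •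
            ((p : WittVector p E) ^ m • t) = 0 := by rw [h2, smul_zero]
        rwa [smul_smul, Units.inv_mul, one_smul] at h3
      have h4 : ∀ m : ℕ, ((p : WittVector p E) ^ m) • t = 0 → t = 0 := by
        intro m
        induction m with
        | zero => intro h5; simpa using h5
        | succ m ih =>
          intro h5
          refine ih (h i _ ?_)
          rw [← Nat.cast_smul_eq_nsmul (WittVector p E), smul_smul, ← pow_succ', h5]
      exact h4 m h1
  have htors : Module.IsTorsionFree (WittVector p E) ((T.TP i).obj M) := by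
    refine Module.IsTorsionFree.of_smul_eq_zero fun a t hat => htf a t hat
  have hfree : Module.Free (WittVector p E) ((T.TP i).obj M) :=
    Module.free_of_finite_type_torsion_free'
  refine ⟨hfree, ?_⟩
  have key3 : ∀ e : ZMod 2, e = e + 1 + 1 := by decide
  have hsurj : ∀ h' : (T.HP i).obj M, ∃ t, T.red i M t = h' := by
    intro h'
    refine ((T.exact i M).exact₂ h').1 (h (i + 1) _ ?_)
    exact ((T.exact i M).exact₃ _).2 ⟨h', rfl⟩
  let b := Module.Free.chooseBasis (WittVector p E) ((T.TP i).obj M)
  have hli : LinearIndependent E fun j => T.red i M (b j) := by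
    rw [Fintype.linearIndependent_iff]
    intro g hg j
    choose a ha using fun l => WittVector.constantCoeff_surjective p (g l)
    have h1 : T.red i M (∑ l, a l • b l) = 0 := by
      rw [map_sum, ← hg]
      exact Finset.sum_congr rfl fun l _ => by rw [(T.exact i M).red_smul, ha]
    obtain ⟨s, hs⟩ := ((T.exact i M).exact₁ _).1 h1
    have h2 : a j = p * b.repr s j := by
      have h3 := congrArg (fun t => b.repr t j) hs
      simp only [b.repr_sum_self] at h3
      rw [h3, ← Nat.cast_smul_eq_nsmul (WittVector p E), map_smul, Finsupp.smul_apply, smul_eq_mul]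
    rw [← ha, h2, map_mul, map_natCast, CharP.cast_eq_zero, zero_mul]
  have hspan : ⊤ ≤ Submodule.span E (Set.range fun j => T.red i M (b j)) := by
    intro h' _
    obtain ⟨t, rfl⟩ := hsurj h'
    rw [← b.sum_repr t, map_sum]
    refine Submodule.sum_mem _ fun l _ => ?_
    rw [(T.exact i M).red_smul]
    exact Submodule.smul_mem _ _ (Submodule.subset_span ⟨l, rfl⟩)
  let b' := Basis.mk hli hspan
  rw [Module.finrank_eq_card_basis b', Module.finrank_eq_card_basis b]

/-- The second part of the theorem. -/
theorem main {F : Type*} [Field F] (ι : F →+* E) (M : C) (e : ZMod 2)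
    (h : IsAlgebraic T.HP ι M e) (i : ZMod 2) : T.FreeTP i M ∧ T.dimHP i M = T.rankTP i M :=
  free_of_torsion_free T M (torsion_free T ι M e h) i

end

end Pool.Agent.T9h41.TPC
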